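import Mathlib
import Pool.Agent.Hhelper87.FC.Main

/-!
# MP_d93556_al: the answer is positive when `G/Z(G)` has at most `ℵ₁` elements

If `G` is an FC-group which is residually (finite derived subgroup) and `|G/Z(G)| ≤ ℵ₁`, then
`G/Z(G)` embeds in a restricted direct product of finite groups.

Method: locally inner automorphisms with finite displacement, a closure operator on countable sets
of elements and automorphisms (replacing countable elementary submodels), and a decomposition
lemma which splits off a countable direct factor at every step of a chain of length `ω₁`.
-/

namespace Pool.Agent.Results.MP_d93556_al.AlephOne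

open Subgroup Cardinal

universe u

/-- `G` is an FC-group, residually (finite derived subgroup), with `|G/Z(G)| ≤ ℵ₁`. Then there
are finite groups `F i` and an injective homomorphism from `G/Z(G)` to the product of the `F i`
whose values have only finitely many coordinates different from `1`. -/
theorem result {G : Type u} [Group G]
    (hFC : ∀ x : G, (conjugatesOf x).Finite)
    (hX : ∀ g : G, g ≠ 1 → ∃ N : Subgroup G, ∃ _ : N.Normal, g ∉ N ∧
      Finite (_root_.commutator (G ⧸ N)))
    (hcard : #(G ⧸ center G) ≤ ℵ₁) :
    ∃ (ι : Type u) (F : ι → Type u) (_ : ∀ i, Group (F i)) (_ : ∀ i, Finite (F i))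
      (f : (G ⧸ center G) →* (∀ i, F i)), Function.Injective f ∧
        ∀ x, {i | f x i ≠ 1}.Finite :=
  Pool.Agent.Hhelper87.FC.main hFC hX hcard

end Pool.Agent.Results.MP_d93556_al.AlephOne
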