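import Mathlib
import Pool.Agent.FCG.Final

/-!
# MP_d93556_al: results without any restriction on cardinalities

Let `G` be an FC-group which is residually (finite derived subgroup).

* `G / Z_2(G)` always embeds in a restricted direct product of finite groups; in particular the
  answer to the question is positive for all `G` such that `G / Z(G)` has trivial centre.
* If the centre of `G / Z(G)` is countable, then `G / Z(G)` embeds in a restricted direct product
  of finite groups.
* The same holds if `Z(G) ∩ G'` is countable, or has finite exponent, or is covered by an
  ascending sequence of subgroups `T n` of `G` which meet the subgroup of `e n`-th powers of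
  `Z(G) ∩ G'` trivially for suitable `e n > 0`.

Method: modulo its centre, the group of locally inner automorphisms with finite displacement is
the direct product of the image of any closed set of automorphisms (of any size) and the image of
the pointwise stabiliser of the corresponding closed set of elements; a countable closed set even
splits off before factoring out the centre.
-/

namespace Pool.Agent.Results.MP_d93556_al.SecondCentre

open Subgroup

universe u

/-- `G` is an FC-group, residually (finite derived subgroup). Then (1) `G / Z_2(G)` embeds in a
restricted direct product of finite groups; (2) if the centre of `G / Z(G)` is countable, or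
`Z(G) ∩ G'` is countable, or of finite exponent, or of Kulikov type, then `G / Z(G)` embeds in a
restricted direct product of finite groups. -/
theorem result {G : Type u} [Group G]
    (hFC : ∀ x : G, (conjugatesOf x).Finite)
    (hX : ∀ g : G, g ≠ 1 → ∃ N : Subgroup G, ∃ _ : N.Normal, g ∉ N ∧
      Finite (_root_.commutator (G ⧸ N))) :
    (∃ (ι : Type u) (F : ι → Type u) (_ : ∀ i, Group (F i)) (_ : ∀ i, Finite (F i))
      (f : (G ⧸ Subgroup.upperCentralSeries G 2) →* (∀ i, F i)), Function.Injective f ∧
        ∀ x, {i | f x i ≠ 1}.Finite) ∧
    ((Countable (center (G ⧸ center G)) ∨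
      ((center G ⊓ _root_.commutator G : Subgroup G) : Set G).Countable ∨
      (∃ e : ℕ, 0 < e ∧ ∀ a ∈ center G ⊓ _root_.commutator G, a ^ e = 1) ∨
      (∃ (T : ℕ → Subgroup G) (e : ℕ → ℕ), Monotone T ∧
        (∀ g ∈ center G ⊓ _root_.commutator G, ∃ n, g ∈ T n) ∧ (∀ n, 0 < e n) ∧
        (∀ n, T n ⊓ Subgroup.closure {b | ∃ a ∈ center G ⊓ _root_.commutator G, a ^ e n = b}
          = ⊥))) →
    ∃ (ι : Type u) (F : ι → Type u) (_ : ∀ i, Group (F i)) (_ : ∀ i, Finite (F i))
      (f : (G ⧸ center G) →* (∀ i, F i)), Function.Injective f ∧
        ∀ x, {i | f x i ≠ 1}.Finite) :=
  Pool.Agent.FCG.main3 hFC hX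

end Pool.Agent.Results.MP_d93556_al.SecondCentre
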